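import Pool.Agent.Helper44.PL.MO

set_option autoImplicit false

/-!
# Project PL: bichromatic pairs
-/

namespace Pool.Agent.Helper44.PL

open Pool.Agent.Helper84.PL

theorem lf_of_rho {V : Type} [PartialOrder V] (R : Rz V) {x y : V} (h : R.rho x < R.rho y)
    (hn : ¬ x < y) : Lf R y x := by
  refine ⟨?_, h⟩
  have h1 : R.lam x ≠ R.lam y := fun h2 => by
    rw [R.lam_inj h2] at h
    exact lt_irrefl _ h
  have h2 : ¬ R.lam x < R.lam y := fun h3 => hn ((R.lt_iff x y).2 ⟨h3, h⟩)
  omega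

theorem bi (hXL : G_XL) : G_BI := by
  intro V _ _ R χ τ h M hB hM hm b u w u' w' e e' hu hw ⟨s1, s2, s3⟩
  obtain ⟨huw, cu, cw⟩ := e
  obtain ⟨huw', cu', cw'⟩ := e'
  have ne1 : τ u' ≠ τ w := fun h0 => by
    have h1 := hB.col _ _ h0
    rw [cu', cw] at h1
    cases b <;> simp at h1
  unfold sig at s1 s2 s3
  cases b with
  | true =>
    have cw2 : ¬ χ w = true := by rw [cw]; simp
    have cw2' : ¬ χ w' = true := by rw [cw']; simp
    rw [if_pos cu, if_pos cu'] at s1
    rw [if_pos cu', if_neg cw2] at s2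
    rw [if_neg cw2, if_neg cw2'] at s3
    have t1 : τ u ≤ τ u' := tau_le (hM u').1 s1
    have t2 : τ u' ≤ τ w := tau_le (hM w).2 s2
    have t3 : τ w ≤ τ w' := tau_le (hM w').2 s3
    have f1 : τ u = τ u' → Lf R u u' := fun h0 => by
      rw [h0] at s1
      refine lf_of R (by omega) fun hlt => ?_
      have := hm u u' hlt h0
      omega
    have f2 : τ w = τ w' → Lf R w' w := fun h0 => by
      rw [h0] at s3
      refine lf_of_rho R (by omega) fun hlt => ?_
      have := hm w w' hlt h0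
      omega
    rcases Nat.lt_or_ge (τ u) (τ u') with g1 | g1
    · rcases Nat.lt_or_ge (τ w) (τ w') with g2 | g2
      · exact hB.nc true u w u' w' ⟨huw, cu, cw⟩ ⟨huw', cu', cw'⟩ ⟨g1, by omega, g2⟩
      · have h0 : τ w = τ w' := by omega
        have := hB.iW u w u' w' ⟨huw, cu, cw⟩ ⟨huw', cu', cw'⟩ h0 (f2 h0)
        omega
    · have h0 : τ u = τ u' := by omega
      rcases Nat.lt_or_ge (τ w) (τ w') with g2 | g2
      · have := hB.oW u w u' w' ⟨huw, cu, cw⟩ ⟨huw', cu', cw'⟩ h0 (f1 h0)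
        omega
      · have h0' : τ w = τ w' := by omega
        exact hXL V R u w u' w' huw (f1 h0) huw'.le (f2 h0')
  | false =>
    have cu2 : ¬ χ u = true := by rw [cu]; simp
    have cu2' : ¬ χ u' = true := by rw [cu']; simp
    have cw2 : χ w = true := by rw [cw]; simp
    have cw2' : χ w' = true := by rw [cw']; simp
    rw [if_neg cu2, if_neg cu2'] at s1
    rw [if_neg cu2', if_pos cw2] at s2
    rw [if_pos cw2, if_pos cw2'] at s3
    have t1 : τ u ≤ τ u' := tau_le (hM u').2 s1
    have t2 : τ u' ≤ τ w := tau_le (hM w).1 s2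
    have t3 : τ w ≤ τ w' := tau_le (hM w').1 s3
    have f1 : τ u = τ u' → Lf R u' u := fun h0 => by
      rw [h0] at s1
      refine lf_of_rho R (by omega) fun hlt => ?_
      have := hm u u' hlt h0
      omega
    have f2 : τ w = τ w' → Lf R w w' := fun h0 => by
      rw [h0] at s3
      refine lf_of R (by omega) fun hlt => ?_
      have := hm w w' hlt h0
      omega
    rcases Nat.lt_or_ge (τ u) (τ u') with g1 | g1
    · rcases Nat.lt_or_ge (τ w) (τ w') with g2 | g2
      · exact hB.nc false u w u' w' ⟨huw, cu, cw⟩ ⟨huw', cu', cw'⟩ ⟨g1, by omega, g2⟩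
      · have h0 : τ w = τ w' := by omega
        have := hB.iB u w u' w' ⟨huw, cu, cw⟩ ⟨huw', cu', cw'⟩ h0 (f2 h0)
        omega
    · have h0 : τ u = τ u' := by omega
      rcases Nat.lt_or_ge (τ w) (τ w') with g2 | g2
      · have := hB.oB u w u' w' ⟨huw, cu, cw⟩ ⟨huw', cu', cw'⟩ h0 (f1 h0)
        omega
      · have h0' : τ w = τ w' := by omega
        exact hXL V R u' w' u w huw' (f1 h0) huw.le (f2 h0')

end Pool.Agent.Helper44.PL
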