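import Pool.Agent.Helper84.PL.Goals

set_option autoImplicit false

/-!
# Project PL: monochromatic pairs
-/

namespace Pool.Agent.Helper44.PL

open Pool.Agent.Helper84.PL

theorem lf_of {V : Type} [PartialOrder V] (R : Rz V) {x y : V} (h : R.lam x < R.lam y)
    (hn : ¬ x < y) : Lf R x y := by
  refine ⟨h, ?_⟩
  have h1 : R.rho x ≠ R.rho y := fun h2 => by
    rw [R.rho_inj h2] at h
    exact lt_irrefl _ h
  have h2 : ¬ R.rho x < R.rho y := fun h3 => hn ((R.lt_iff x y).2 ⟨h, h3⟩)
  omega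

theorem tau_le {a b r s M : ℕ} (hs : s < M) (h : M * a + r < M * b + s) : a ≤ b := by
  by_contra hc
  have h1 : b + 1 ≤ a := by omega
  have h2 : M * (b + 1) ≤ M * a := Nat.mul_le_mul_left M h1
  rw [Nat.mul_add, Nat.mul_one] at h2
  omega

theorem mo_white (hXL : G_XL) (hFOR : G_FOR) (V : Type) [Fintype V] [Lattice V] (R : Rz V)
    (χ : V → Bool) (τ h : V → ℕ) (M : ℕ)
    (hM : ∀ v : V, R.lam v < M ∧ R.rho v < M)
    (hs : ∀ u w : V, u ⋖ w → χ u = χ w → τ u = τ w)
    (hm : ∀ u v : V, u < v → τ u = τ v → h u < h v) (i j : ℕ) :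
    ∃ col : V → Bool, ∀ u w u' w' : V, u ⋖ w → u' ⋖ w' →
      χ u = true → χ w = true → χ u' = true → χ w' = true → h u = i → h u' = i → h w = j →
      h w' = j → sig R χ τ M u < sig R χ τ M u' → sig R χ τ M u' < sig R χ τ M w →
      sig R χ τ M w < sig R χ τ M w' → col u ≠ col u' := by
  -- the facts in one configuration
  have key : ∀ u w u' w' : V, u ⋖ w → u' ⋖ w' →
      χ u = true → χ w = true → χ u' = true → χ w' = true → h u = i → h u' = i → h w = j →
      h w' = j → sig R χ τ M u < sig R χ τ M u' → sig R χ τ M u' < sig R χ τ M w →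
      sig R χ τ M w < sig R χ τ M w' →
      τ u' = τ u ∧ τ w = τ u ∧ τ w' = τ u ∧ Lf R u u' ∧ Lf R w w' ∧ u' < w := by
    intro u w u' w' huw hu'w' cu cw cu' cw' hu hu' hw hw' h1 h2 h3
    have t1 : τ u = τ w := hs u w huw (by rw [cu, cw])
    have t2 : τ u' = τ w' := hs u' w' hu'w' (by rw [cu', cw'])
    unfold sig at h1 h2 h3
    rw [if_pos cu, if_pos cu'] at h1
    rw [if_pos cu', if_pos cw] at h2
    rw [if_pos cw, if_pos cw'] at h3
    have t3 : τ u ≤ τ u' := tau_le (hM u').1 h1
    have t4 : τ u' ≤ τ w := tau_le (hM w).1 h2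
    have t5 : τ u' = τ u := by omega
    have t6 : τ w' = τ w := by omega
    have l1 : R.lam u < R.lam u' := by rw [t5] at h1; omega
    have l2 : R.lam u' < R.lam w := by rw [t5, t1] at h2; omega
    have l3 : R.lam w < R.lam w' := by rw [t6] at h3; omega
    have f1 : Lf R u u' := lf_of R l1 fun hlt => by
      have := hm u u' hlt t5.symm
      omega
    have f2 : Lf R w w' := lf_of R l3 fun hlt => by
      have := hm w w' hlt t6.symm
      omega
    refine ⟨t5, t1.symm, by omega, f1, f2, ?_⟩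
    by_contra hn
    have f3 : Lf R u' w := lf_of R l2 hn
    have h5 := ((R.lt_iff u w).1 huw.lt).2
    have h6 := f1.2
    have h7 := f3.2
    omega
  obtain ⟨col, hcol⟩ := hFOR V (sig R χ τ M) (fun u u' => ∃ w w' : V, u ⋖ w ∧ u' ⋖ w' ∧
      χ u = true ∧ χ w = true ∧ χ u' = true ∧ χ w' = true ∧ h u = i ∧ h u' = i ∧ h w = j ∧
      h w' = j ∧ sig R χ τ M u < sig R χ τ M u' ∧ sig R χ τ M u' < sig R χ τ M w ∧
      sig R χ τ M w < sig R χ τ M w')
    (fun x y ⟨_, _, _, _, _, _, _, _, _, _, _, _, h1, _⟩ => h1)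
    (by
      rintro u u' v ⟨w, w', a1, a2, a3, a4, a5, a6, a7, a8, a9, a10, a11, a12, a13⟩
        ⟨y, y', b1, b2, b3, b4, b5, b6, b7, b8, b9, b10, b11, b12, b13⟩
      obtain ⟨p1, p2, p3, p4, p5, p6⟩ := key u w u' w' a1 a2 a3 a4 a5 a6 a7 a8 a9 a10 a11 a12 a13
      obtain ⟨q1, q2, q3, q4, q5, q6⟩ := key u y v y' b1 b2 b3 b4 b5 b6 b7 b8 b9 b10 b11 b12 b13
      have hwy : w = y := by
        by_contra hne
        rcases lt_trichotomy (R.lam w) (R.lam y) with hl | hl | hl
        · exact hXL V R u y u' w b1 p4 p6.le (lf_of R hl fun hlt => by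
            have := hm w y hlt (by omega)
            omega)
        · exact hne (R.lam_inj hl)
        · exact hXL V R u w v y a1 q4 q6.le (lf_of R hl fun hlt => by
            have := hm y w hlt (by omega)
            omega)
      subst hwy
      by_contra hne
      rcases lt_trichotomy (R.lam u') (R.lam v) with hl | hl | hl
      · exact hXL V R u' w' v w a2 (lf_of R hl fun hlt => by
            have := hm u' v hlt (by omega)
            omega) q6.le p5
      · exact hne (R.lam_inj hl)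
      · exact hXL V R v y' u' w b2 (lf_of R hl fun hlt => by
            have := hm v u' hlt (by omega)
            omega) p6.le q5)
  refine ⟨col, fun u w u' w' a1 a2 a3 a4 a5 a6 a7 a8 a9 a10 a11 a12 a13 => ?_⟩
  exact hcol u u' ⟨w, w', a1, a2, a3, a4, a5, a6, a7, a8, a9, a10, a11, a12, a13⟩

theorem mo (h1 : G_XL) (h2 : G_FOR) : G_MO := by
  intro V _ _ R χ τ h M hM hs _ hm b i j
  cases b with
  | true => exact mo_white h1 h2 V R χ τ h M hM hs hm i j
  | false =>
    have hsig : ∀ v, sig R.sw (fun v => ! χ v) τ M v = sig R χ τ M v := by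
      intro v
      unfold sig
      show M * τ v + (if (! χ v) = true then R.rho v else R.lam v) = _
      cases χ v <;> simp
    obtain ⟨col, hcol⟩ := mo_white h1 h2 V R.sw (fun v => ! χ v) τ h M
      (fun v => ⟨(hM v).2, (hM v).1⟩)
      (fun u w huw hc => hs u w huw (by simpa using hc)) hm i j
    refine ⟨col, fun u w u' w' a1 a2 a3 a4 a5 a6 a7 a8 a9 a10 a11 a12 a13 => ?_⟩
    refine hcol u w u' w' a1 a2 (by simp [a3]) (by simp [a4]) (by simp [a5]) (by simp [a6])
      a7 a8 a9 a10 ?_ ?_ ?_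
    · rw [hsig, hsig]; exact a11
    · rw [hsig, hsig]; exact a12
    · rw [hsig, hsig]; exact a13

end Pool.Agent.Helper44.PL
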